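import Pool.Agent.Q101.LUCC

set_option autoImplicit false

open Filter Topology

namespace Pool.Agent.Results.MP_ee84c2_an.LuccNotSucc

variable (𝕜 : Type) [RCLike 𝕜] {X : Type} [NormedAddCommGroup X] [NormedSpace 𝕜 X]

/-- SUCC: suppression unconditional for constant coefficients. -/
def IsSUCC (x : ℕ → X) : Prop :=
  ∃ C : ℝ, 1 ≤ C ∧ ∀ (A B : Finset ℕ) (ε : ℕ → 𝕜), B ⊆ A → (∀ n ∈ A, ‖ε n‖ = 1) →
    ‖∑ n ∈ B, ε n • x n‖ ≤ C * ‖∑ n ∈ A, ε n • x n‖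

/-- LUCC: lower unconditional for constant coefficients. -/
def IsLUCC (x : ℕ → X) : Prop :=
  ∃ C : ℝ, 1 ≤ C ∧ ∀ (A : Finset ℕ) (ε : ℕ → 𝕜) (a : ℕ → ℝ), (∀ n ∈ A, ‖ε n‖ = 1) →
    (∀ n ∈ A, 1 ≤ a n) →
      ‖∑ n ∈ A, ε n • x n‖ ≤ C * ‖∑ n ∈ A, (ε n * (a n : 𝕜)) • x n‖

/-- Over each of the fields `ℝ`, `ℂ` there is a Banach space with a basis (biorthogonal functionals
`xs n`, dense span, even norm convergent expansions in the given order), normalized and with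
functionals of norm at most one, that is LUCC but not SUCC. -/
theorem result : ∃ (X : Type) (_ : NormedAddCommGroup X) (_ : NormedSpace 𝕜 X)
    (_ : CompleteSpace X) (x : ℕ → X) (xs : ℕ → X →L[𝕜] 𝕜),
    (∀ m n, xs m (x n) = if m = n then 1 else 0) ∧
    closure ((Submodule.span 𝕜 (Set.range x) : Submodule 𝕜 X) : Set X) = Set.univ ∧
    (∀ f : X, Tendsto (fun N => ∑ n ∈ Finset.range N, xs n f • x n) atTop (𝓝 f)) ∧
    (∀ n, ‖x n‖ = 1) ∧ (∀ n, ‖xs n‖ ≤ 1) ∧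
    IsLUCC 𝕜 x ∧ ¬ IsSUCC 𝕜 x := by
  refine ⟨Q101.LUCC.X 𝕜, inferInstance, inferInstance, inferInstance, Q101.LUCC.x 𝕜,
    Q101.LUCC.xs 𝕜, Q101.LUCC.biorth 𝕜, ?_, Q101.LUCC.schauder 𝕜, Q101.LUCC.norm_x 𝕜,
    fun n => ContinuousLinearMap.opNorm_le_bound _ zero_le_one fun f => by
      rw [one_mul]; exact Q101.LUCC.norm_xs_le 𝕜 n f, ?_, ?_⟩
  · rw [Set.eq_univ_iff_forall]
    intro f
    refine mem_closure_of_tendsto (Q101.LUCC.schauder 𝕜 f) (Eventually.of_forall fun N => ?_)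
    exact Submodule.sum_mem _ fun n _ => Submodule.smul_mem _ _ (Submodule.subset_span ⟨n, rfl⟩)
  · refine ⟨1, le_rfl, fun A ε a hε ha => ?_⟩
    rw [one_mul]
    exact Q101.LUCC.lucc A ε hε a ha
  · rintro ⟨C, hC1, hC⟩
    obtain ⟨m, hm⟩ := exists_nat_gt (4 * C ^ 2)
    have h := hC (Finset.range (2 * m))
      ((Finset.range m).map ⟨fun i => 2 * i, fun a b h => by simpa using h⟩) (fun _ => 1)
      (by
        intro n hn
        obtain ⟨i, hi, hin⟩ := Finset.mem_map.1 hn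
        rw [Finset.mem_range] at hi ⊢
        have : 2 * i = n := hin
        omega)
      (fun n _ => norm_one)
    have h1 := (Q101.LUCC.norm_half (𝕜 := 𝕜) m).trans h
    have h2 := h1.trans (mul_le_mul_of_nonneg_left (Q101.LUCC.norm_full (𝕜 := 𝕜) m)
      (by linarith : (0 : ℝ) ≤ C))
    have hm0 : (0 : ℝ) < m := lt_of_le_of_lt (by positivity) hm
    have h3 := Real.sq_sqrt hm0.le
    have h4 : 0 < √(m : ℝ) := Real.sqrt_pos.2 hm0
    have h5 : √(m : ℝ) ≤ 2 * C := by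
      have : √(m : ℝ) * √(m : ℝ) ≤ (2 * C) * √(m : ℝ) := by
        rw [← sq, h3]; linarith
      exact le_of_mul_le_mul_right this h4
    nlinarith

end Pool.Agent.Results.MP_ee84c2_an.LuccNotSucc
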